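import Pool.Agent.Q195.LG5

/-!
# A uniform gap for canonical heights: perturbed power maps with a large constant vector

Let `K` be a number field, `N ≥ 1`, `d ≥ 2`, and let `f : P^N → P^N` be the morphism which is given
on the affine space `X_0 = 1` by

  `f(x) = A (x_1^d, …, x_N^d) + H(x) + c`,

where `A` is an invertible matrix over `K`, `H = (H_1, …, H_N)` are arbitrary polynomials of degree
less than `d` and `c` is a vector.

A finite place `w` of a finite extension `L` of `K` is called good with the constant `ρ > 1` if the
entries of `A` and `A⁻¹` and the coefficients of `H` are integral at `w`, all coordinates of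
`A⁻¹ c` have the absolute value `ρ` at `w`, and `d` is prime to `q (q - 1)`, where `q` is the number
of elements of the residue field of `w`.

There is a constant `C` depending only on `f` such that the following holds for all `δ` in `(0, 1]`.
Let `L` be a finite extension of `K` with a finite set `T` of good places with
`∑ log ρ_w ≥ δ [L : ℚ]`. Then all points `P` of `P^N(L)` outside the hyperplane `X_0 = 0` with
`f(P) ≠ P` satisfy `ĥ(P) ≥ exp (- C / δ)`, a bound which does not depend on the degree of `P`. (The
places are normalised so that `log ρ_w = [L_w : K_v] log ρ_v` if `w` lies above a good place `v` of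
`K`; so `∑ log ρ_w ≥ δ [L : ℚ]` says that a positive proportion of the places of `L` above `v` are
good, counted with their local degrees. Their ramification indices are arbitrary.)

Proof. At a good place `w` all points with bounded orbits have norm `r = ρ_w^(1/d)`, and any two of
them are close, as the residue field contains no `d`-th root of unity except one; `f` multiplies
the distances of such points by at least `r^(d-1)`. So a point which does not escape in the first
`m + 1` steps satisfies `|P - f(P)|_w ≤ r^(1-(d-1)m)`. If this happens at many good places, the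
height of `P` is large by the product formula for a coordinate of `P - f(P)`. Otherwise the point
escapes at many good places in at most `m + 1` steps, and its canonical height is at least
`d^(-m-k-2)` for a bounded number `k`.
-/

set_option autoImplicit false

namespace Pool.Agent.Results.MP_2194ec_nt.LargeTranslationGap

open MvPolynomial NumberField Module Filter Topology

/-- The homogeneous forms `X_0 ^ d` and `∑_j A_ij X_j ^ d + X_0 H_i + c_i X_0 ^ d`, which define the
map `f(x) = A x^[d] + H(1, x) + c` of the affine space `X_0 = 1`. -/
noncomputable def forms {K : Type} [Field K] {N : ℕ} (A : Matrix (Fin N) (Fin N) K) (d : ℕ)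
    (H : Fin N → MvPolynomial (Fin (N + 1)) K) (c : Fin N → K) :
    Fin (N + 1) → MvPolynomial (Fin (N + 1)) K :=
  Fin.cons (X 0 ^ d) fun i => ∑ j : Fin N, C (A i j) * X j.succ ^ d + X 0 * H i + C (c i) * X 0 ^ d

/-- the map defined by a tuple of forms over `K`, on coordinate vectors over an extension -/
noncomputable def evalMap {K L : Type} [Field K] [Field L] [Algebra K L] {N : ℕ}
    (F : Fin (N + 1) → MvPolynomial (Fin (N + 1)) K) (y : Fin (N + 1) → L) : Fin (N + 1) → L :=
  fun i => aeval y (F i)

/-- `h` is the canonical height of the point with coordinate vector `x` over the number field `L`: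
the limit of `h(F^n(x)) / d ^ n`, where `h` is the absolute logarithmic Weil height, that is
Mathlib's (relative) `Height.logHeight` divided by `[L : ℚ]` -/
def IsCanonicalHeight {K L : Type} [Field K] [Field L] [NumberField L] [Algebra K L] {N : ℕ}
    (F : Fin (N + 1) → MvPolynomial (Fin (N + 1)) K) (d : ℕ) (x : Fin (N + 1) → L) (h : ℝ) :
    Prop :=
  Tendsto (fun n : ℕ => Height.logHeight ((evalMap F)^[n] x) /
    ((finrank ℚ L : ℝ) * (d : ℝ) ^ n)) atTop (𝓝 h)

/-- The finite place `w` of `L` (with Mathlib's normalised absolute value: `w(a) = q ^ (-ord_w(a))`,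
where `q` is the number of elements of the residue field) is good with the constant `ρ`. -/
structure GoodPlace {K L : Type} [Field K] [Field L] [NumberField L] [Algebra K L] {N : ℕ}
    (A : Matrix (Fin N) (Fin N) K) (d : ℕ) (H : Fin N → MvPolynomial (Fin (N + 1)) K)
    (c : Fin N → K) (w : FinitePlace L) (ρ : ℝ) : Prop where
  integral : ∀ i j, w (algebraMap K L (A i j)) ≤ 1
  integral_inv : ∀ i j, w (algebraMap K L (A⁻¹ i j)) ≤ 1
  integral_coeff : ∀ i s, w (algebraMap K L ((H i).coeff s)) ≤ 1
  one_lt : 1 < ρ
  abs_eq : ∀ i, w (algebraMap K L (A⁻¹.mulVec c i)) = ρ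
  coprime : Nat.Coprime d (w.maximalIdeal.asIdeal.absNorm * (w.maximalIdeal.asIdeal.absNorm - 1))

/-- **Main result.** -/
theorem result (K : Type) [Field K] [NumberField K] (N d : ℕ) (hN : 1 ≤ N) (hd : 2 ≤ d)
    (A : Matrix (Fin N) (Fin N) K) (hA : IsUnit A.det)
    (H : Fin N → MvPolynomial (Fin (N + 1)) K) (hH : ∀ i, (H i).IsHomogeneous (d - 1))
    (c : Fin N → K) :
    ∃ C : ℝ, 0 < C ∧ ∀ δ : ℝ, 0 < δ → δ ≤ 1 →
      ∀ (L : Type) [Field L] [NumberField L] [Algebra K L]
      -- good places of `L` and their constants
      (T : Finset (FinitePlace L)) (ρ : FinitePlace L → ℝ),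
      (∀ w ∈ T, GoodPlace A d H c w (ρ w)) →
      δ * finrank ℚ L ≤ ∑ w ∈ T, Real.log (ρ w) →
      -- a point outside the hyperplane at infinity which is not fixed
      ∀ x : Fin (N + 1) → L, x 0 ≠ 0 → (¬ ∃ a : L, evalMap (forms A d H c) x = a • x) →
      ∃ h : ℝ, IsCanonicalHeight (forms A d H c) d x h ∧ Real.exp (-(C / δ)) ≤ h := by
  obtain ⟨C, hC, h⟩ := Pool.Agent.Q195.LG.main_proj hN hd A hA H hH c
  refine ⟨C, hC, fun δ hδ hδ1 L _ _ _ T ρ hT hsum x hx hne => ?_⟩
  exact h δ hδ hδ1 L T ρ (fun w hw => ⟨(hT w hw).integral, (hT w hw).integral_inv,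
    (hT w hw).integral_coeff, (hT w hw).one_lt, (hT w hw).abs_eq, (hT w hw).coprime⟩) hsum x hx hne

end Pool.Agent.Results.MP_2194ec_nt.LargeTranslationGap
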