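import Mathlib
import Pool.Agent.Q188.CM.Lat

/-!
# A quasi-Lehmer bound for Lattès maps of all degrees in all dimensions

Let `W` be an elliptic curve over a number field `K` with potentially good, supersingular reduction
at a prime `𝔭` of `K` above the prime number `p` (if `K = ℚ`, every elliptic curve has infinitely
many such primes, by a theorem of Elkies). For `k ≥ 2` let `φ_k` be the Lattès map of the
projective line given by the multiplication by `k` on first coordinates, of degree `k ^ 2`, and let
`Sym^N φ_k` be the endomorphism of `P^N = (P^1)^N / S_N`, of degree `k ^ 2`, which it induces: this is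
the Lattès map given by the multiplication by `k` on `W ^ N`.

Let `f` be an endomorphism of `P^n` over `K` of degree `k ^ 2` that is semiconjugate to `Sym^N φ_k`
for some `N`: there is a finite morphism `ψ : P^n → P^N` over `K` with
`ψ ∘ f = Sym^N φ_k ∘ ψ`. For example, `f = Sym^n φ_k`; or `f` is the map given by the multiplication by
`k` on the quotient `P^n` of the abelian variety `{x_0 + … + x_n = 0}` in `W ^ (n + 1)` by the
symmetric group `S_(n+1)`, for which `N = n + 1`. We prove:

There is a constant `C` such that all wandering points `P` of `P^n(L)`, `L` a finite extension of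
`K` of degree `D`, satisfy

  `ĥ_f(P) ≥ exp (- C * sqrt (1 + log D)) / (C * D)`.

More generally, let `E` be an abelian extension of `K`, let `M` be a finite extension of `E` which is
generated by coordinates of torsion points of `W` of order prime to `p`, and let `L` be a finite
extension of `M` of degree `D`. Then all wandering points `P` of `P^n(L)` satisfy

* `ĥ_f(P) ≥ exp (- C * sqrt (1 + log D)) / (C * [E : K] * D)`;
* `ĥ_f(P) ≥ exp (- C * sqrt (1 + log D)) / (C * e * D)`, if the ramification indices of `E` over `K`
  at the primes above `𝔭` are at most `e`;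

`E` may also be any Galois extension of `K` such that, for a fixed `m`, the `m`-th powers of the
elements of the decomposition groups above `𝔭` have a bounded number of conjugates in the Galois
group. (The first statement is the case `E = M = K`.)

The numbers `k` and `p` are unrelated, so the degree of `f` need not be a power of `p`, and `f` need
not have purely inseparable reduction at any place.

The method: the first coordinates of the points of `W` over number fields cover the projective
line, so that `φ_k` and `φ_p`, and then `f' = Sym^N φ_k` and `g = Sym^N φ_p`, commute. Hence the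
canonical heights of `f'` and `g` are equal, `ĥ_(f')(ψ(P)) = deg ψ * ĥ_f(P)`, and `ψ(P)` is
wandering for `g` if `P` is wandering for `f`, because the latter implies that `ĥ_f(P) > 0`. Then the
bound for symmetric powers of maps of the line with purely inseparable reduction (`SymmetricPowers`)
applies to `ψ(P)`.
-/

set_option autoImplicit false

open MvPolynomial NumberField Module Filter Topology
open scoped Pointwise

namespace Pool.Agent.Results.MP_2194ec_nt.LattesMaps

/-- A pair `G` of binary forms of degree `q` over the number field `k` has *good, purely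
inseparable reduction* at the finite place `v`: all coefficients are `v`-integral, those of the
monomials other than `X ^ q` and `Y ^ q` are in the maximal ideal, and the determinant of the
coefficients of `X ^ q` and `Y ^ q` is a unit at `v`. -/
def GoodInseparable {k : Type} [Field k] [NumberField k] (v : FinitePlace k) (q : ℕ)
    (G : Fin 2 → MvPolynomial (Fin 2) k) : Prop :=
  (∀ i m, v ((G i).coeff m) ≤ 1) ∧
  (∀ i m, m ≠ Finsupp.single 0 q → m ≠ Finsupp.single 1 q → v ((G i).coeff m) < 1) ∧
  v ((G 0).coeff (Finsupp.single 0 q) * (G 1).coeff (Finsupp.single 1 q) -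
    (G 0).coeff (Finsupp.single 1 q) * (G 1).coeff (Finsupp.single 0 q)) = 1

/-- The pair `F` of binary forms over `K` has *potentially good, purely inseparable reduction*
above the prime ideal `𝔭` of `K`, which contains `p`: there are a number field `K'` containing `K`,
an invertible matrix `A` over `K'` and a pair `G` of binary forms of degree `q` over `K'` with
`A ∘ F = G ∘ A`, which has good, purely inseparable reduction at a finite place `v` of `K'` above
`𝔭`. -/
def PotentiallyInseparable {K : Type} [Field K] [NumberField K] (𝔭 : Ideal (𝓞 K)) (p q : ℕ)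
    (F : Fin 2 → MvPolynomial (Fin 2) K) : Prop :=
  ∃ (K' : Type) (_ : Field K') (_ : NumberField K') (_ : Algebra K K')
    (A : Matrix (Fin 2) (Fin 2) K') (G : Fin 2 → MvPolynomial (Fin 2) K') (v : FinitePlace K'),
    A.det ≠ 0 ∧ (∀ i, (G i).IsHomogeneous q) ∧
    (∀ i, ∑ j, C (A i j) * map (algebraMap K K') (F j) =
      bind₁ (fun k => ∑ l, C (A k l) * X l) (G i)) ∧
    v.maximalIdeal.asIdeal.under (𝓞 K) = 𝔭 ∧ v (p : K') < 1 ∧ GoodInseparable v q G

/-- the map defined by a tuple of `b` forms in `a` variables, on coordinate vectors over an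
extension -/
noncomputable def evalMap {K L : Type} [Field K] [Field L] [Algebra K L] {a b : ℕ}
    (F : Fin b → MvPolynomial (Fin a) K) (y : Fin a → L) : Fin b → L := fun i => aeval y (F i)

/-- the `b` forms in `a` variables are homogeneous of degree `q` and have no common zero: they
define a morphism from the projective space of dimension `a - 1` to the one of dimension `b - 1`,
of degree `q` -/
def IsMorphism {K : Type} [Field K] {a b : ℕ} (q : ℕ) (F : Fin b → MvPolynomial (Fin a) K) :
    Prop :=
  (∀ i, (F i).IsHomogeneous q) ∧
    ∀ z : Fin a → AlgebraicClosure K, (∀ i, aeval z (F i) = 0) → z = 0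

/-- The morphism `ψ` intertwines the endomorphisms `f` and `f'`: `ψ(f(x))` and `f'(ψ(x))` are the
same point, for all points `x` of the projective space over the number fields that contain `K`. -/
def Intertwines {K : Type} [Field K] [NumberField K] {a b : ℕ} (ψ : Fin b → MvPolynomial (Fin a) K)
    (f : Fin a → MvPolynomial (Fin a) K) (f' : Fin b → MvPolynomial (Fin b) K) : Prop :=
  ∀ (L : Type) [Field L] [NumberField L] [Algebra K L] (x : Fin a → L), x ≠ 0 →
    ∃ c : L, c ≠ 0 ∧ evalMap ψ (evalMap f x) = c • evalMap f' (evalMap ψ x)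

/-- the point with coordinate vector `x` is wandering: its iterates are pairwise distinct points
of the projective space -/
def Wandering {K L : Type} [Field K] [Field L] [Algebra K L] {n : ℕ}
    (F : Fin n → MvPolynomial (Fin n) K) (x : Fin n → L) : Prop :=
  ¬ ∃ m k : ℕ, m ≠ k ∧ ∃ c : L, c ≠ 0 ∧ (evalMap F)^[k] x = c • (evalMap F)^[m] x

/-- `h` is the canonical height of the point with coordinate vector `x` over the number field `L`:
the limit of `h(F^t(x)) / q ^ t`, where `h` is the absolute logarithmic Weil height, that is
Mathlib's (relative) `Height.logHeight` divided by `[L : ℚ]` -/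
def IsCanonicalHeight {K L : Type} [Field K] [Field L] [NumberField L] [Algebra K L] {n : ℕ}
    (F : Fin n → MvPolynomial (Fin n) K) (q : ℕ) (x : Fin n → L) (h : ℝ) : Prop :=
  Tendsto (fun t : ℕ => Height.logHeight ((evalMap F)^[t] x) /
    ((finrank ℚ L : ℝ) * (q : ℝ) ^ t)) atTop (𝓝 h)

/-- the point of projective `n`-space that corresponds to the `n` points `z i = (a_i : b_i)` of the
projective line: the coefficients of the product of the linear forms `b_i X - a_i` -/
noncomputable def symPoint {Ω : Type} [Field Ω] {n : ℕ} (z : Fin n → Fin 2 → Ω) :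
    Fin (n + 1) → Ω :=
  fun k => (∏ i, (Polynomial.C (z i 1) * Polynomial.X - Polynomial.C (z i 0))).coeff k

/-- The endomorphism of projective `n`-space with the forms `g` is the `n`-th symmetric power of the
endomorphism of the projective line with the forms `F`: it maps the point that corresponds to
`z_1, …, z_n` to the point that corresponds to `F(z_1), …, F(z_n)`, over all extensions of `K`. -/
def IsSymmetricPower {K : Type} [Field K] {n : ℕ} (F : Fin 2 → MvPolynomial (Fin 2) K)
    (g : Fin (n + 1) → MvPolynomial (Fin (n + 1)) K) : Prop :=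
  ∀ (Ω : Type) [Field Ω] [Algebra K Ω] (z : Fin n → Fin 2 → Ω), (∀ i, z i ≠ 0) →
    ∃ c : Ω, c ≠ 0 ∧ evalMap g (symPoint z) = c • symPoint (fun i => evalMap F (z i))

/-- the `m`-th powers of the elements of the decomposition groups of the primes of `E` above `𝔭`
have at most `B` conjugates in the Galois group of `E` over `K` -/
def FewConjugates {K : Type} [Field K] [NumberField K] (𝔭 : Ideal (𝓞 K)) (E : Type) [Field E]
    [NumberField E] [Algebra K E] (m B : ℕ) : Prop :=
  ∀ 𝔓 : Ideal (𝓞 E), 𝔓.IsMaximal → 𝔓.LiesOver 𝔭 → ∀ σ : Gal(E/K), σ • 𝔓 = 𝔓 →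
    (Set.range fun g : Gal(E/K) => g * σ ^ m * g⁻¹).ncard ≤ B

/-- the coordinate vector `(x : 1)` of the first coordinate of a point of the curve `W` over `L`,
and `(1 : 0)` for the point at infinity -/
noncomputable def xCoord {L : Type} [Field L] {W : WeierstrassCurve.Affine L} :
    W.Point → Fin 2 → L
  | .zero => ![1, 0]
  | .some x _ _ => ![x, 1]

open Classical in
/-- the pair `F` of forms of degree `k ^ 2` gives the multiplication by `k` of the curve `W` on
first coordinates, `x(k P) = F(x(P))`, for the points over all number fields containing `K` -/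
def IsMultiplication {K : Type} [Field K] [NumberField K] (W : WeierstrassCurve.Affine K) (k : ℕ)
    (F : Fin 2 → MvPolynomial (Fin 2) K) : Prop :=
  (∀ i, (F i).IsHomogeneous (k ^ 2)) ∧
  ∀ (L : Type) [Field L] [NumberField L] [Algebra K L] (P : (W.baseChange L).Point),
    ∃ c : L, c ≠ 0 ∧ evalMap F (xCoord P) = c • xCoord (k • P)

/-- The elliptic curve `W` is *potentially supersingular* at the prime ideal `𝔭` of `K`, which
contains `p`: the pair of forms which gives the multiplication by `p` on first coordinates has
potentially good, purely inseparable reduction above `𝔭`. -/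
def PotentiallySupersingular {K : Type} [Field K] [NumberField K] (W : WeierstrassCurve.Affine K)
    (𝔭 : Ideal (𝓞 K)) (p : ℕ) : Prop :=
  ∃ F : Fin 2 → MvPolynomial (Fin 2) K,
    IsMultiplication W p F ∧ PotentiallyInseparable 𝔭 p (p ^ 2) F

open Classical in
/-- `t` is a coordinate of a point of order prime to `p` of the curve `W` over the field `M` -/
def IsTorsionCoordinate {K : Type} [Field K] [NumberField K] (W : WeierstrassCurve.Affine K)
    (p : ℕ) {M : Type} [Field M] [NumberField M] [Algebra K M] (t : M) : Prop :=
  ∃ (x y : M) (h : (W.baseChange M).Nonsingular x y),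
    (∃ m : ℕ, m.Coprime p ∧ m • (WeierstrassCurve.Affine.Point.some x y h :
      (W.baseChange M).Point) = 0) ∧ (t = x ∨ t = y)

/-- The bounds: for all `K ⊆ E ⊆ M ⊆ L` as in the introduction and all wandering points of
projective `n`-space over `L`. -/
def LowerBounds {K : Type} [Field K] [NumberField K] (W : WeierstrassCurve.Affine K) {n : ℕ}
    (𝔭 : Ideal (𝓞 K)) (p d m B : ℕ) (f : Fin (n + 1) → MvPolynomial (Fin (n + 1)) K)
    (c : ℝ) : Prop :=
  ∀ (E M L : Type) [Field E] [NumberField E] [Field M] [NumberField M]
    [Field L] [NumberField L] [Algebra K E] [Algebra K M] [Algebra K L] [Algebra E M]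
    [Algebra M L] [IsScalarTower K E M] [IsScalarTower K M L] [IsGalois K E],
    FewConjugates 𝔭 E m B → Algebra.adjoin E {t : M | IsTorsionCoordinate W p t} = ⊤ →
    ∀ x : Fin (n + 1) → L, x ≠ 0 → Wandering f x →
    ∃ h : ℝ, IsCanonicalHeight f d x h ∧
      Real.exp (-(c * Real.sqrt (1 + Real.log (finrank M L)))) /
        (c * finrank K E * finrank M L) ≤ h ∧
      ∀ e : ℕ, (∀ 𝔓 : Ideal (𝓞 E), 𝔓.IsMaximal → 𝔓.LiesOver 𝔭 →
        𝔓.ramificationIdx (𝓞 K) ≤ e) →
        Real.exp (-(c * Real.sqrt (1 + Real.log (finrank M L)))) / (c * e * finrank M L) ≤ h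

/-- **A quasi-Lehmer bound for Lattès maps of all degrees `k ^ 2`, in all dimensions.** The case
`m = B = 1` allows all abelian extensions `E` of `K`. -/
theorem result (K : Type) [Field K] [NumberField K] (W : WeierstrassCurve.Affine K)
    [W.IsElliptic] (p : ℕ) (hp : p.Prime) (𝔭 : Ideal (𝓞 K)) (hss : PotentiallySupersingular W 𝔭 p)
    (k n N e : ℕ) (hk : 2 ≤ k) (he : 1 ≤ e)
    (F : Fin 2 → MvPolynomial (Fin 2) K) (hF : IsMultiplication W k F)
    (f' : Fin (N + 1) → MvPolynomial (Fin (N + 1)) K) (hf' : IsMorphism (k ^ 2) f')
    (hsym : IsSymmetricPower F f')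
    (ψ : Fin (N + 1) → MvPolynomial (Fin (n + 1)) K) (hψ : IsMorphism e ψ)
    (f : Fin (n + 1) → MvPolynomial (Fin (n + 1)) K) (hf : IsMorphism (k ^ 2) f)
    (hsemi : Intertwines ψ f f') (m B : ℕ) (hm : 1 ≤ m) :
    ∃ c : ℝ, 0 < c ∧ LowerBounds W 𝔭 p (k ^ 2) m B f c := by
  classical
  obtain ⟨F₀, ⟨hF₀, hm₀⟩, K', i1, i2, i3, A, G, v, hA, hG, hconj, hv𝔭, hv, h1, h2, h3⟩ := hss
  subst hv𝔭
  have hxc : ∀ (M : Type) [Field M] (V : WeierstrassCurve.Affine M) (Q : V.Point),
      xCoord Q = Pool.Agent.Y740.RL.xc Q := by
    intro M _ V Q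
    cases Q <;> rfl
  have hmul : ∀ (j : ℕ) (F : Fin 2 → MvPolynomial (Fin 2) K), IsMultiplication W j F →
      Pool.Agent.Q188.CM.Mul W j F := by
    intro j F hF M _ _ _ Q
    obtain ⟨c, hc, hc'⟩ := hF.2 M Q
    rw [hxc, hxc] at hc'
    exact ⟨c, hc, hc'⟩
  exact Pool.Agent.Q188.CM.lattes W hp F₀ hF₀ (hmul p F₀ ⟨hF₀, hm₀⟩) K' A hA G hG hconj v hv
    ⟨h1, h2, h3⟩ B m hm hk hF.1 (hmul k F hF) hf'.1 hf'.2 hsym hψ.1 hψ.2 he hf.1 hf.2 hsemi

end Pool.Agent.Results.MP_2194ec_nt.LattesMaps
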