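import Pool.Agent.Results.MP_2194ec_nt.PolynomialLehmer
import Pool.Agent.Q319.WN.Basis

/-!
# Lower bounds for canonical heights for ALL polynomial maps near the multiples and the dilates of almost every real one

Let `K` be a number field with an integral basis `ω` and let `d ≥ 2`. The polynomial maps
`φ = (c_0 + c_1 x + … + c_d x^d) / b` over `K` are given by the vectors `(b, c_0, …, c_d)` of integers of `K`, and these by
their vectors of coordinates `x` in the basis `ω`. A vector of integers is good of level `m` if `b ≠ 0`, `φ` has degree `d`
and for every number field `L` which contains `K` and whose degree over `K` is not divisible by `d` the canonical heights of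
all `x ∈ L` are at least `(m + 1) / [L : K]`, and at least `m + 1` if `L` is Galois over `K` (in particular there are no
preperiodic points in `L`). Let `F` denote a real vector with as many entries as the vectors of coordinates.

1. For all `F` with entries at most `Y` outside a set of measure at most `ε Y ^ M`, `M` the number of entries, and 100% of
   the `k ≤ R` ALL the maps whose vectors of coordinates are within `w` of `k F` are good of level `m` (`Y` large in terms
   of `ε`, `w` and `m`; every `R`).
2. For every sequence `v_k → ∞` and almost every `F` ALL the maps with coordinates within `w` of `v_k F` are good of level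
   `m`, for 100% of the `k < K_j`, for a sequence `K_j → ∞` which does not depend on `F`, `w` and `m`.
3. If `v_k` increases fast enough then for almost every `F` and all large `k` ALL the maps with coordinates within `k` of
   `v_k F` are good of all levels `m ≤ k`.

From Mathlib: `volume`: the Lebesgue measure; `Module.Basis`; `𝓞 K`. That 100% of the maps are good is from the starting
file `PolynomialLehmer` (with the definition of `Exceptional`). `vec` is defined in `Pool.Agent.Q319.WN.Basis`;
`MultiplesVec`, `DilatesVec`, `FastDilatesVec` in `Pool.Agent.Q319.WN.Vec`.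
-/

set_option autoImplicit false

namespace Pool.Agent.Results.MP_2194ec_nt.MapsNearRealMaps

open Filter Topology NumberField Pool.Agent.Q319.WN Pool.Agent.Results.MP_2194ec_nt.PolynomialLehmer

lemma null_exc (K : Type) [Field K] [NumberField K] (d : ℕ) (hd : 2 ≤ d) (J : Type) [Fintype J]
    (ω : Module.Basis J ℤ (𝓞 K)) (m : ℕ) :
    NullBox (fun x : Fin (d + 2) × J → ℤ => vec ω x ∈ Exceptional K d ((m : ℝ) + 1)) := by
  have h := (PolynomialLehmer.result K d hd ((m : ℝ) + 1) (by positivity)).2 J ω
  have h' := null_basis' ω (fun c : Fin (d + 2) → 𝓞 K => c ∉ Exceptional K d ((m : ℝ) + 1)) ?_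
  · exact h'.mono fun x hx => not_not.2 hx
  · refine h.congr fun H => ?_
    have e1 : Exceptional K d ((m : ℝ) + 1) ∩ Box ω (d + 2) H =
        {c : Fin (d + 2) → 𝓞 K | (∀ i j, |ω.repr (c i) j| ≤ (H : ℤ)) ∧ ¬ c ∉ Exceptional K d ((m : ℝ) + 1)} := by
      ext c
      simp only [Box, Set.mem_inter_iff, Set.mem_ofPred_eq, not_not]
      exact and_comm
    rw [e1]
    rfl

/-- Let `K` be a number field with integral basis `ω` and `d ≥ 2`. The vectors of coordinates of the maps which are not good
of level `m` (see `Exceptional`, with the bound `B = m + 1`) are
1. rare at the multiples of almost every real vector `F`,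
2. rare at the dilates `v k F`, for every sequence `v k → ∞` and almost every `F`,
3. absent within the distance `k` of `v k F` and for `m ≤ k`, for all large `k`, for every fast sequence `v k` and almost
   every `F` (see `MultiplesVec`, `DilatesVec` and `FastDilatesVec` for the precise statements). -/
theorem result (K : Type) [Field K] [NumberField K] (d : ℕ) (hd : 2 ≤ d) (J : Type) [Fintype J]
    (ω : Module.Basis J ℤ (𝓞 K)) :
    (∀ m : ℕ, MultiplesVec (fun x : Fin (d + 2) × J → ℤ => vec ω x ∈ Exceptional K d ((m : ℝ) + 1))) ∧
      DilatesVec (fun (m : ℕ) (x : Fin (d + 2) × J → ℤ) => vec ω x ∈ Exceptional K d ((m : ℝ) + 1)) ∧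
      FastDilatesVec (fun (m : ℕ) (x : Fin (d + 2) × J → ℤ) => vec ω x ∈ Exceptional K d ((m : ℝ) + 1)) :=
  null_all fun m => null_exc K d hd J ω m

end Pool.Agent.Results.MP_2194ec_nt.MapsNearRealMaps
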