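import Mathlib
import Pool.Agent.Q188.SY.Top
import Pool.Agent.Q188.SY.Ex

/-!
# A quasi-Lehmer bound in all dimensions: symmetric powers of maps of the projective line

Let `φ` be a rational map of `P^1` of degree `q ≥ 2` over a number field `K`. Projective `n`-space is
the `n`-th symmetric power of `P^1`: the point `{z_1, …, z_n}`, `z_i = (a_i : b_i)`, has as its
coordinates the coefficients of the product of the linear forms `b_i X - a_i`. So `φ` induces an
endomorphism `f = Sym^n φ` of `P^n` over `K` of the same degree `q`; we prove that `n + 1` forms of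
degree `q` without common zeros that define `f` always exist (they are the coefficients of a
resultant).

Assume that `q = p ^ r` with `p` a prime number, and that over some finite extension `K'` of `K`, in
some coordinates, `φ` has good and purely inseparable reduction at a place above `p` (for example,
`φ = X ^ q + c` with `c` integral at this place, `φ = X ^ q + p a(X)` with `a` integral and
`deg a < q`, or a Chebyshev polynomial of degree `q`); let `𝔭` be the prime of `K` below it. We
prove for all `n`, and for `f = Sym^n φ`:

There is a constant `C` such that all wandering points `P` of `P^n(L)`, `L` a finite extension of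
`K` of degree `D`, satisfy

  `ĥ_f(P) ≥ exp (- C * sqrt (1 + log D)) / (C * D)`.

More generally, let `E` be an abelian extension of `K`, let `N` be a finite extension of `E` which is
generated by coordinates of periodic points of `φ`, and let `L` be a finite extension of `N` of
degree `D`. Then all wandering points `P` of `P^n(L)` satisfy

* `ĥ_f(P) ≥ exp (- C * sqrt (1 + log D)) / (C * [E : K] * D)`;
* `ĥ_f(P) ≥ exp (- C * sqrt (1 + log D)) / (C * e * D)`, if the ramification indices of `E` over `K`
  at the primes above `𝔭` are at most `e`;

`E` may also be any Galois extension of `K` such that, for a fixed `m`, the `m`-th powers of the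
elements of the decomposition groups above `𝔭` have a bounded number of conjugates in the Galois
group. (The first statement is the case `E = N = K`.)

So the exponent of `D` in the conjecture is reached, up to `exp (C sqrt (1 + log D))`, in every
dimension. The starting file `InseparableLehmer` is the case `n = 1`; for `n ≥ 2` the forms of
`Sym^n φ` do not have purely inseparable reduction in general, and the starting file
`PolynomialBound` has, for the maps it treats, the weaker loss `exp (C (1 + log D) ^ (n / (n + 1)))`
and ramification indices in the denominator.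

The method: if `P = {z_1, …, z_n}` is wandering then some `z_i` is, it is defined over an extension
of `L` of degree at most `n`, and its canonical height is at most that of `P`, because the height of a
root of a polynomial is bounded in terms of the height of its coefficients.
-/

set_option autoImplicit false

open MvPolynomial NumberField Module Filter Topology
open scoped Pointwise

namespace Pool.Agent.Results.MP_2194ec_nt.SymmetricPowers

/-- A pair `G` of binary forms of degree `q` over the number field `k` has *good, purely
inseparable reduction* at the finite place `v`: all coefficients are `v`-integral, those of the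
monomials other than `X ^ q` and `Y ^ q` are in the maximal ideal, and the determinant of the
coefficients of `X ^ q` and `Y ^ q` is a unit at `v`. -/
def GoodInseparable {k : Type} [Field k] [NumberField k] (v : FinitePlace k) (q : ℕ)
    (G : Fin 2 → MvPolynomial (Fin 2) k) : Prop :=
  (∀ i m, v ((G i).coeff m) ≤ 1) ∧
  (∀ i m, m ≠ Finsupp.single 0 q → m ≠ Finsupp.single 1 q → v ((G i).coeff m) < 1) ∧
  v ((G 0).coeff (Finsupp.single 0 q) * (G 1).coeff (Finsupp.single 1 q) -
    (G 0).coeff (Finsupp.single 1 q) * (G 1).coeff (Finsupp.single 0 q)) = 1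

/-- The pair `F` of binary forms over `K` has *potentially good, purely inseparable reduction*
above the prime ideal `𝔭` of `K`, which contains `p`: there are a number field `K'` containing `K`,
an invertible matrix `A` over `K'` and a pair `G` of binary forms of degree `q` over `K'` with
`A ∘ F = G ∘ A`, which has good, purely inseparable reduction at a finite place `v` of `K'` above
`𝔭`. -/
def PotentiallyInseparable {K : Type} [Field K] [NumberField K] (𝔭 : Ideal (𝓞 K)) (p q : ℕ)
    (F : Fin 2 → MvPolynomial (Fin 2) K) : Prop :=
  ∃ (K' : Type) (_ : Field K') (_ : NumberField K') (_ : Algebra K K')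
    (A : Matrix (Fin 2) (Fin 2) K') (G : Fin 2 → MvPolynomial (Fin 2) K') (v : FinitePlace K'),
    A.det ≠ 0 ∧ (∀ i, (G i).IsHomogeneous q) ∧
    (∀ i, ∑ j, C (A i j) * map (algebraMap K K') (F j) =
      bind₁ (fun k => ∑ l, C (A k l) * X l) (G i)) ∧
    v.maximalIdeal.asIdeal.under (𝓞 K) = 𝔭 ∧ v (p : K') < 1 ∧ GoodInseparable v q G

/-- the map defined by a tuple of forms, on coordinate vectors over an extension -/
noncomputable def evalMap {K L : Type} [Field K] [Field L] [Algebra K L] {n : ℕ}
    (F : Fin n → MvPolynomial (Fin n) K) (y : Fin n → L) : Fin n → L := fun i => aeval y (F i)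

/-- the `n` forms in `n` variables are homogeneous of degree `q` and have no common zero: they
define an endomorphism of the projective space of dimension `n - 1` -/
def IsEndomorphism {K : Type} [Field K] {n : ℕ} (q : ℕ) (F : Fin n → MvPolynomial (Fin n) K) :
    Prop :=
  (∀ i, (F i).IsHomogeneous q) ∧
    ∀ z : Fin n → AlgebraicClosure K, (∀ i, aeval z (F i) = 0) → z = 0

/-- the point with coordinate vector `x` is wandering: its iterates are pairwise distinct points
of the projective space -/
def Wandering {K L : Type} [Field K] [Field L] [Algebra K L] {n : ℕ}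
    (F : Fin n → MvPolynomial (Fin n) K) (x : Fin n → L) : Prop :=
  ¬ ∃ m k : ℕ, m ≠ k ∧ ∃ c : L, c ≠ 0 ∧ (evalMap F)^[k] x = c • (evalMap F)^[m] x

/-- `h` is the canonical height of the point with coordinate vector `x` over the number field `L`:
the limit of `h(F^t(x)) / q ^ t`, where `h` is the absolute logarithmic Weil height, that is
Mathlib's (relative) `Height.logHeight` divided by `[L : ℚ]` -/
def IsCanonicalHeight {K L : Type} [Field K] [Field L] [NumberField L] [Algebra K L] {n : ℕ}
    (F : Fin n → MvPolynomial (Fin n) K) (q : ℕ) (x : Fin n → L) (h : ℝ) : Prop :=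
  Tendsto (fun t : ℕ => Height.logHeight ((evalMap F)^[t] x) /
    ((finrank ℚ L : ℝ) * (q : ℝ) ^ t)) atTop (𝓝 h)

/-- the point of projective `n`-space that corresponds to the `n` points `z i = (a_i : b_i)` of the
projective line: the coefficients of the product of the linear forms `b_i X - a_i` -/
noncomputable def symPoint {Ω : Type} [Field Ω] {n : ℕ} (z : Fin n → Fin 2 → Ω) :
    Fin (n + 1) → Ω :=
  fun k => (∏ i, (Polynomial.C (z i 1) * Polynomial.X - Polynomial.C (z i 0))).coeff k

/-- The endomorphism of projective `n`-space with the forms `f` is the `n`-th symmetric power of the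
endomorphism of the projective line with the forms `F`: it maps the point that corresponds to
`z_1, …, z_n` to the point that corresponds to `F(z_1), …, F(z_n)`, over all extensions of `K`. -/
def IsSymmetricPower {K : Type} [Field K] {n : ℕ} (F : Fin 2 → MvPolynomial (Fin 2) K)
    (f : Fin (n + 1) → MvPolynomial (Fin (n + 1)) K) : Prop :=
  ∀ (Ω : Type) [Field Ω] [Algebra K Ω] (z : Fin n → Fin 2 → Ω), (∀ i, z i ≠ 0) →
    ∃ c : Ω, c ≠ 0 ∧ evalMap f (symPoint z) = c • symPoint (fun i => evalMap F (z i))

/-- the `m`-th powers of the elements of the decomposition groups of the primes of `E` above `𝔭`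
have at most `B` conjugates in the Galois group of `E` over `K` -/
def FewConjugates {K : Type} [Field K] [NumberField K] (𝔭 : Ideal (𝓞 K)) (E : Type) [Field E]
    [NumberField E] [Algebra K E] (m B : ℕ) : Prop :=
  ∀ 𝔓 : Ideal (𝓞 E), 𝔓.IsMaximal → 𝔓.LiesOver 𝔭 → ∀ σ : Gal(E/K), σ • 𝔓 = 𝔓 →
    (Set.range fun g : Gal(E/K) => g * σ ^ m * g⁻¹).ncard ≤ B

/-- the elements `t` of `N` such that the point `(t : 1)` of the projective line is periodic -/
def periodicSet {K : Type} [Field K] (F : Fin 2 → MvPolynomial (Fin 2) K) (N : Type) [Field N]
    [Algebra K N] : Set N :=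
  {t | ∃ j : ℕ, 1 ≤ j ∧ ∃ c : N, c ≠ 0 ∧ (evalMap F)^[j] ![t, 1] = c • ![t, 1]}

/-- The bounds: for all `K ⊆ E ⊆ N ⊆ L` as in the introduction and all wandering points of
projective `n`-space over `L`. -/
def LowerBounds {K : Type} [Field K] [NumberField K] {n : ℕ} (𝔭 : Ideal (𝓞 K)) (q m B : ℕ)
    (F : Fin 2 → MvPolynomial (Fin 2) K) (f : Fin (n + 1) → MvPolynomial (Fin (n + 1)) K)
    (c : ℝ) : Prop :=
  ∀ (E N L : Type) [Field E] [NumberField E] [Field N] [NumberField N]
    [Field L] [NumberField L] [Algebra K E] [Algebra K N] [Algebra K L] [Algebra E N]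
    [Algebra N L] [IsScalarTower K E N] [IsScalarTower K N L] [IsGalois K E],
    FewConjugates 𝔭 E m B → Algebra.adjoin E (periodicSet F N) = ⊤ →
    ∀ x : Fin (n + 1) → L, x ≠ 0 → Wandering f x →
    ∃ h : ℝ, IsCanonicalHeight f q x h ∧
      Real.exp (-(c * Real.sqrt (1 + Real.log (finrank N L)))) /
        (c * finrank K E * finrank N L) ≤ h ∧
      ∀ e : ℕ, (∀ 𝔓 : Ideal (𝓞 E), 𝔓.IsMaximal → 𝔓.LiesOver 𝔭 →
        𝔓.ramificationIdx (𝓞 K) ≤ e) →
        Real.exp (-(c * Real.sqrt (1 + Real.log (finrank N L)))) / (c * e * finrank N L) ≤ h

/-- **A quasi-Lehmer bound for symmetric powers of maps of the projective line.** The first part is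
the existence of the symmetric powers, for all endomorphisms of the projective line. The second
part is the lower bound; `m = B = 1` allows all abelian extensions `E` of `K`. -/
theorem result (K : Type) [Field K] [NumberField K] :
    (∀ (q n : ℕ) (F : Fin 2 → MvPolynomial (Fin 2) K), IsEndomorphism q F →
      ∃ f : Fin (n + 1) → MvPolynomial (Fin (n + 1)) K,
        IsEndomorphism q f ∧ IsSymmetricPower F f) ∧
    ∀ (p r n : ℕ) (F : Fin 2 → MvPolynomial (Fin 2) K)
      (f : Fin (n + 1) → MvPolynomial (Fin (n + 1)) K) (𝔭 : Ideal (𝓞 K)), p.Prime → 1 ≤ r →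
      IsEndomorphism (p ^ r) F → IsEndomorphism (p ^ r) f → IsSymmetricPower F f →
      PotentiallyInseparable 𝔭 p (p ^ r) F →
      ∀ m B : ℕ, 1 ≤ m → ∃ c : ℝ, 0 < c ∧ LowerBounds 𝔭 (p ^ r) m B F f c := by
  refine ⟨fun q n F hF => ?_, ?_⟩
  · obtain ⟨f, h1, h2, h3⟩ := Pool.Agent.Q188.SY.exists_symPow (n := n) hF.1 hF.2
    exact ⟨f, ⟨h1, h2⟩, h3⟩
  · intro p r n F f 𝔭 hp hr hF hf hsym hred m B hm
    obtain ⟨K', i1, i2, i3, A, G, v, hA, hG, hconj, hv𝔭, hv, h1, h2, h3⟩ := hred
    subst hv𝔭
    exact Pool.Agent.Q188.SY.main hp hr F hF.1 K' A hA G hG hconj v hv ⟨h1, h2, h3⟩ B m hm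
      hf.1 hf.2 hsym

end Pool.Agent.Results.MP_2194ec_nt.SymmetricPowers
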